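import Mathlib

/-! The radial solutions of the Helmholtz equation in dimension `n`: positivity and monotonicity up
to `n / 2`, and a bound by the value at `n / 2` beyond. -/

set_option autoImplicit false

namespace Pool.Agent.K4H71.TS

/-- `F` solves `F'' + (n - 1) / x * F' + F = 0`, `F 0 = 1`, `F' 0 = 0`. -/
structure Radial (n : ℕ) (F F1 F2 : ℝ → ℝ) : Prop where
  d1 : ∀ x, HasDerivAt F (F1 x) x
  d2 : ∀ x, HasDerivAt F1 (F2 x) x
  ode : ∀ x, x * F2 x + (n - 1) * F1 x + x * F x = 0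
  zero : F 0 = 1
  zero1 : F1 0 = 0

namespace Radial

variable {n : ℕ} {F F1 F2 : ℝ → ℝ}

theorem cont (h : Radial n F F1 F2) : Continuous F :=
  continuous_iff_continuousAt.2 fun x => (h.d1 x).continuousAt

theorem cont1 (h : Radial n F F1 F2) : Continuous F1 :=
  continuous_iff_continuousAt.2 fun x => (h.d2 x).continuousAt

/-- the first step: as long as `F ≥ 0` -/
theorem step (h : Radial n F F1 F2) (hn : 2 ≤ n) {z : ℝ} (hz0 : 0 ≤ z) (hz : z ≤ n / 2)
    (hF : ∀ x, 0 ≤ x → x < z → 0 ≤ F x) :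
    ∀ x, 0 ≤ x → x ≤ z → 0 ≤ F1 x + 2 * x / n * F x := by
  have hn0 : (0 : ℝ) < n := by positivity
  obtain ⟨m, rfl⟩ : ∃ m, n = m + 2 := ⟨n - 2, by omega⟩
  push_cast at *
  set N : ℝ := (m : ℝ) + 2 with hN
  set G : ℝ → ℝ := fun x => x ^ (m + 1) * Real.exp (-(x ^ 2 / N)) * (F1 x + 2 * x / N * F x)
    with hG
  have hd : ∀ x, HasDerivAt G (x ^ (m + 1) * Real.exp (-(x ^ 2 / N)) *
      (F x * (1 - 4 * x ^ 2 / N ^ 2))) x := by
    intro x
    have e1 : HasDerivAt (fun x : ℝ => x ^ (m + 1)) (((m + 1 : ℕ) : ℝ) * x ^ m) x := by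
      simpa using hasDerivAt_pow (m + 1) x
    have e2 : HasDerivAt (fun x : ℝ => Real.exp (-(x ^ 2 / N)))
        (Real.exp (-(x ^ 2 / N)) * (-(2 * x / N))) x := by
      have := (((hasDerivAt_pow 2 x).div_const N).neg).exp
      simpa using this
    have e3 : HasDerivAt (fun x : ℝ => F1 x + 2 * x / N * F x)
        (F2 x + (2 / N * F x + 2 * x / N * F1 x)) x := by
      have h4 : HasDerivAt (fun x : ℝ => 2 * x / N) (2 / N) x := by
        have := ((hasDerivAt_id x).const_mul 2).div_const N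
        simpa using this
      exact (h.d2 x).add (h4.mul (h.d1 x))
    have e := (e1.mul e2).mul e3
    refine e.congr_deriv ?_
    have ho := h.ode x
    have hx2 : x ^ (m + 1) = x ^ m * x := pow_succ x m
    have key : (((m + 1 : ℕ) : ℝ) * (F1 x + 2 * x / N * F x) - 2 * x ^ 2 / N * (F1 x + 2 * x / N * F x)
        + (x * F2 x + (2 / N * (x * F x) + 2 * x ^ 2 / N * F1 x))) =
        x * (F x * (1 - 4 * x ^ 2 / N ^ 2)) := by
      have h5 : x * F2 x = -(((m : ℝ) + 2 - 1) * F1 x) - x * F x := by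
        have : (↑(m + 2 : ℕ) : ℝ) = (m : ℝ) + 2 := by push_cast; ring
        rw [this] at ho
        linarith [ho]
      rw [h5]
      push_cast
      have h6 : (m : ℝ) = N - 2 := by rw [hN]; ring
      rw [h6]
      field_simp
      ring
    have : ∀ E P : ℝ, ((((m + 1 : ℕ) : ℝ) * P) * E + P * x * (E * (-(2 * x / N)))) *
        (F1 x + 2 * x / N * F x) + P * x * E * (F2 x + (2 / N * F x + 2 * x / N * F1 x)) =
        P * E * (((m + 1 : ℕ) : ℝ) * (F1 x + 2 * x / N * F x) -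
          2 * x ^ 2 / N * (F1 x + 2 * x / N * F x)
          + (x * F2 x + (2 / N * (x * F x) + 2 * x ^ 2 / N * F1 x))) := by
      intro E P
      ring
    simp only [Pi.mul_apply]
    rw [hx2, this, key]
    ring
  have hmono : MonotoneOn G (Set.Icc 0 z) := by
    refine monotoneOn_of_hasDerivWithinAt_nonneg (convex_Icc 0 z)
      (fun x _ => (hd x).continuousAt.continuousWithinAt) (fun x hx => (hd x).hasDerivWithinAt) ?_
    intro x hx
    rw [interior_Icc] at hx
    have h1 := hF x hx.1.le hx.2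
    have h2 : 0 ≤ 1 - 4 * x ^ 2 / N ^ 2 := by
      rw [sub_nonneg, div_le_one (by positivity)]
      have : 2 * x ≤ N := by linarith [hx.2]
      nlinarith [hx.1]
    have := hx.1.le
    positivity
  intro x hx0 hxz
  rcases hx0.eq_or_lt with rfl | hx
  · rw [h.zero1]
    simp
  · have h1 := hmono ⟨le_rfl, hz0⟩ ⟨hx0, hxz⟩ hx0
    have h2 : G 0 = 0 := by simp [hG]
    rw [h2] at h1
    have h3 : 0 < x ^ (m + 1) * Real.exp (-(x ^ 2 / N)) := by positivity
    exact nonneg_of_mul_nonneg_right h1 h3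

theorem grow (h : Radial n F F1 F2) (hn : 2 ≤ n) {z : ℝ} (hz0 : 0 ≤ z) (hz : z ≤ n / 2)
    (hF : ∀ x, 0 ≤ x → x < z → 0 ≤ F x) {x y : ℝ} (hx : 0 ≤ x) (hxy : x ≤ y) (hy : y ≤ z) :
    Real.exp (x ^ 2 / n) * F x ≤ Real.exp (y ^ 2 / n) * F y := by
  have hs := h.step hn hz0 hz hF
  have hd : ∀ x, HasDerivAt (fun x => Real.exp (x ^ 2 / n) * F x)
      (Real.exp (x ^ 2 / n) * (F1 x + 2 * x / n * F x)) x := by
    intro x
    have e2 : HasDerivAt (fun x : ℝ => Real.exp (x ^ 2 / n))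
        (Real.exp (x ^ 2 / n) * (2 * x / n)) x := by
      have := ((hasDerivAt_pow 2 x).div_const (n : ℝ)).exp
      simpa using this
    refine (e2.mul (h.d1 x)).congr_deriv ?_
    ring
  have hmono : MonotoneOn (fun x => Real.exp (x ^ 2 / n) * F x) (Set.Icc 0 z) := by
    refine monotoneOn_of_hasDerivWithinAt_nonneg (convex_Icc 0 z)
      (fun x _ => (hd x).continuousAt.continuousWithinAt) (fun x hx => (hd x).hasDerivWithinAt) ?_
    intro x hx
    rw [interior_Icc] at hx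
    exact mul_nonneg (Real.exp_pos _).le (hs x hx.1.le hx.2.le)
  exact hmono ⟨hx, hxy.trans hy⟩ ⟨hx.trans hxy, hy⟩ hxy

/-- `F > 0` on `[0, n / 2]` -/
theorem pos (h : Radial n F F1 F2) (hn : 2 ≤ n) : ∀ x : ℝ, 0 ≤ x → x ≤ (n : ℝ) / 2 → 0 < F x := by
  by_contra hc
  push Not at hc
  obtain ⟨x0, hx0, hx1, hx2⟩ := hc
  set S : Set ℝ := Set.Icc 0 ((n : ℝ) / 2) ∩ {x | F x ≤ 0} with hS
  have hcomp : IsCompact S :=
    isCompact_Icc.inter_right (isClosed_le h.cont continuous_const)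
  obtain ⟨z, hz, hzl⟩ := hcomp.exists_isLeast ⟨x0, ⟨hx0, hx1⟩, hx2⟩
  have h1 : ∀ x, 0 ≤ x → x < z → 0 ≤ F x := by
    intro x hx hxz
    by_contra hc
    exact absurd (hzl ⟨⟨hx, hxz.le.trans hz.1.2⟩, (not_le.1 hc).le⟩) (not_le.2 hxz)
  have h2 := h.grow hn hz.1.1 hz.1.2 h1 le_rfl hz.1.1 le_rfl
  rw [h.zero] at h2
  have h3 : F z ≤ 0 := hz.2
  have h4 : Real.exp (z ^ 2 / n) * F z ≤ 0 := mul_nonpos_of_nonneg_of_nonpos (Real.exp_pos _).le h3
  have h5 : (0 : ℝ) < Real.exp (0 ^ 2 / n) * 1 := by positivity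
  linarith

theorem low (h : Radial n F F1 F2) (hn : 2 ≤ n) :
    ∀ x : ℝ, 0 ≤ x → x ≤ (n : ℝ) / 2 → -(2 * x / n * F x) ≤ F1 x := by
  intro x hx hx2
  have := h.step hn (by positivity : (0 : ℝ) ≤ (n : ℝ) / 2) le_rfl
    (fun y hy hy2 => (h.pos hn y hy hy2.le).le) x hx hx2
  linarith

theorem growth (h : Radial n F F1 F2) (hn : 2 ≤ n) {x y : ℝ} (hx : 0 ≤ x) (hxy : x ≤ y)
    (hy : y ≤ n / 2) : F x ≤ Real.exp ((y ^ 2 - x ^ 2) / n) * F y := by
  have h1 := h.grow hn (by positivity : (0 : ℝ) ≤ (n : ℝ) / 2) le_rfl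
    (fun y hy hy2 => (h.pos hn y hy hy2.le).le) hx hxy hy
  have h2 : Real.exp ((y ^ 2 - x ^ 2) / n) = Real.exp (y ^ 2 / n) / Real.exp (x ^ 2 / n) := by
    rw [← Real.exp_sub]
    congr 1
    ring
  rw [h2, div_mul_eq_mul_div, le_div_iff₀ (Real.exp_pos _)]
  linarith

/-- `F' ≤ 0` on `[0, n / 2]` -/
theorem dec (h : Radial n F F1 F2) (hn : 2 ≤ n) :
    ∀ x : ℝ, 0 ≤ x → x ≤ (n : ℝ) / 2 → F1 x ≤ 0 := by
  obtain ⟨m, rfl⟩ : ∃ m, n = m + 2 := ⟨n - 2, by omega⟩
  have hd : ∀ x, HasDerivAt (fun x => x ^ (m + 1) * F1 x) (-(x ^ (m + 1) * F x)) x := by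
    intro x
    have e1 : HasDerivAt (fun x : ℝ => x ^ (m + 1)) (((m + 1 : ℕ) : ℝ) * x ^ m) x := by
      simpa using hasDerivAt_pow (m + 1) x
    refine (e1.mul (h.d2 x)).congr_deriv ?_
    have ho := h.ode x
    push_cast at ho ⊢
    have : x ^ (m + 1) = x ^ m * x := pow_succ x m
    rw [this]
    linear_combination (x ^ m) * ho
  have hanti : AntitoneOn (fun x => x ^ (m + 1) * F1 x) (Set.Icc 0 (((m + 2 : ℕ) : ℝ) / 2)) := by
    refine antitoneOn_of_hasDerivWithinAt_nonpos (convex_Icc _ _)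
      (fun x _ => (hd x).continuousAt.continuousWithinAt) (fun x hx => (hd x).hasDerivWithinAt) ?_
    intro x hx
    rw [interior_Icc] at hx
    have h1 := h.pos hn x hx.1.le hx.2.le
    have := hx.1.le
    rw [neg_nonpos]
    positivity
  intro x hx hx2
  rcases hx.eq_or_lt with rfl | hx0
  · rw [h.zero1]
  · have h1 := hanti ⟨le_rfl, by positivity⟩ ⟨hx, hx2⟩ hx
    simp only [ne_eq, Nat.add_eq_zero_iff, one_ne_zero, and_false, not_false_eq_true, zero_pow,
      zero_mul] at h1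
    have h3 : 0 < x ^ (m + 1) := by positivity
    by_contra hc
    push Not at hc
    have := mul_pos h3 hc
    linarith

theorem anti (h : Radial n F F1 F2) (hn : 2 ≤ n) {x y : ℝ} (hx : 0 ≤ x) (hxy : x ≤ y)
    (hy : y ≤ n / 2) : F y ≤ F x := by
  have hanti : AntitoneOn F (Set.Icc 0 ((n : ℝ) / 2)) := by
    refine antitoneOn_of_hasDerivWithinAt_nonpos (convex_Icc _ _) h.cont.continuousOn
      (fun x hx => (h.d1 x).hasDerivWithinAt) ?_
    intro x hx
    rw [interior_Icc] at hx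
    exact h.dec hn x hx.1.le hx.2.le
  exact hanti ⟨hx, hxy.trans hy⟩ ⟨hx.trans hxy, hy⟩ hxy

/-- energy: beyond `n / 2` -/
theorem far (h : Radial n F F1 F2) (hn : 2 ≤ n) {x : ℝ} (hx : (n : ℝ) / 2 ≤ x) :
    |F x| ≤ √2 * F ((n : ℝ) / 2) := by
  have hn0 : (0 : ℝ) < n := by positivity
  have hd : ∀ x, HasDerivAt (fun x => F x ^ 2 + F1 x ^ 2) (2 * F1 x * (F x + F2 x)) x := by
    intro x
    refine (((h.d1 x).pow 2).add ((h.d2 x).pow 2)).congr_deriv ?_
    simp only [Nat.cast_ofNat, Nat.add_one_sub_one, pow_one]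
    ring
  have hanti : AntitoneOn (fun x => F x ^ 2 + F1 x ^ 2) (Set.Ici ((n : ℝ) / 2)) := by
    refine antitoneOn_of_hasDerivWithinAt_nonpos (convex_Ici _)
      (fun x _ => (hd x).continuousAt.continuousWithinAt) (fun x hx => (hd x).hasDerivWithinAt) ?_
    intro x hx
    rw [interior_Ici] at hx
    have hx0 : 0 < x := lt_trans (by positivity) hx
    have ho := h.ode x
    have h1 : F x + F2 x = -((n - 1) * F1 x / x) := by
      field_simp
      linarith
    rw [h1]
    have h2 : (0 : ℝ) ≤ n - 1 := by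
      have : (2 : ℝ) ≤ n := by exact_mod_cast hn
      linarith
    have h3 : 0 ≤ (n - 1) * F1 x ^ 2 / x := by positivity
    have h4 : 2 * F1 x * -((n - 1) * F1 x / x) = -(2 * ((n - 1) * F1 x ^ 2 / x)) := by ring
    rw [h4]
    linarith
  have h1 := hanti (Set.mem_Ici.2 le_rfl) (Set.mem_Ici.2 hx) hx
  simp only at h1
  have hp := h.pos hn ((n : ℝ) / 2) (by positivity) le_rfl
  have hl := h.low hn ((n : ℝ) / 2) (by positivity) le_rfl
  have hu := h.dec hn ((n : ℝ) / 2) (by positivity) le_rfl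
  have e : 2 * ((n : ℝ) / 2) / n = 1 := by field_simp
  rw [e, one_mul] at hl
  have h2 : F x ^ 2 ≤ 2 * F ((n : ℝ) / 2) ^ 2 := by
    nlinarith [sq_nonneg (F1 x)]
  have h3 : |F x| ≤ √(2 * F ((n : ℝ) / 2) ^ 2) := Real.abs_le_sqrt h2
  rwa [Real.sqrt_mul (by norm_num), Real.sqrt_sq hp.le] at h3

/-- the upper bound at `n / 2` -/
theorem up (h : Radial n F F1 F2) (hn : 2 ≤ n) {N w₀ : ℝ} (hw0 : 0 < w₀) (hw1 : w₀ < 1)
    (hN : N ^ 2 * (1 - w₀ ^ 2) = (n : ℝ) ^ 2) (hN0 : 0 < N) (hbig : 1 / w₀ ≤ N - n + 1) :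
    F ((n : ℝ) / 2) ≤ Real.exp (-(N / 2 * (1 - w₀ - Real.log 2 + Real.log (1 + w₀)))) := by
  have hn0 : (0 : ℝ) < n := by positivity
  set w : ℝ → ℝ := fun x => √(1 - 4 * x ^ 2 / N ^ 2) with hw
  have hx4 : ∀ x : ℝ, 0 ≤ x → x ≤ (n : ℝ) / 2 → w₀ ^ 2 ≤ 1 - 4 * x ^ 2 / N ^ 2 := by
    intro x hx hx2
    have h1 : 4 * x ^ 2 ≤ (n : ℝ) ^ 2 := by nlinarith
    have h2 : 4 * x ^ 2 / N ^ 2 ≤ 1 - w₀ ^ 2 := by
      rw [div_le_iff₀ (by positivity)]
      linarith
    linarith
  have hww : ∀ x : ℝ, 0 ≤ x → x ≤ (n : ℝ) / 2 → w₀ ≤ w x := by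
    intro x hx hx2
    rw [hw]
    exact Real.le_sqrt_of_sq_le (hx4 x hx hx2)
  have hwsq : ∀ x : ℝ, 0 ≤ x → x ≤ (n : ℝ) / 2 → w x ^ 2 = 1 - 4 * x ^ 2 / N ^ 2 := by
    intro x hx hx2
    rw [hw]
    exact Real.sq_sqrt ((sq_nonneg w₀).trans (hx4 x hx hx2))
  -- the derivative of `w`
  have hwd : ∀ x : ℝ, 0 < x → x < (n : ℝ) / 2 → HasDerivAt w (-(4 * x / (N ^ 2 * w x))) x := by
    intro x hx hx2
    have h1 : HasDerivAt (fun x : ℝ => 1 - 4 * x ^ 2 / N ^ 2) (-(8 * x / N ^ 2)) x := by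
      have := (((hasDerivAt_pow 2 x).const_mul 4).div_const (N ^ 2)).const_sub 1
      refine this.congr_deriv ?_
      simp only [Nat.cast_ofNat, Nat.add_one_sub_one, pow_one]
      ring
    have h2 : 1 - 4 * x ^ 2 / N ^ 2 ≠ 0 := by
      have := hx4 x hx.le hx2.le
      have h2 : 0 < w₀ ^ 2 := by positivity
      linarith
    have h3 := h1.sqrt h2
    refine h3.congr_deriv ?_
    have h4 : 0 < w x := hw0.trans_le (hww x hx.le hx2.le)
    have h5 : √(1 - 4 * x ^ 2 / N ^ 2) = w x := rfl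
    rw [h5]
    field_simp
    ring
  -- the primitive `Z` and the subsolution `z`
  set z : ℝ → ℝ := fun x => 2 * x / (N * (1 + w x)) with hz
  set Z : ℝ → ℝ := fun x => N / 2 * (1 - w x - Real.log 2 + Real.log (1 + w x)) with hZ
  have hZd : ∀ x : ℝ, 0 < x → x < (n : ℝ) / 2 → HasDerivAt Z (z x) x := by
    intro x hx hx2
    have h4 : 0 < w x := hw0.trans_le (hww x hx.le hx2.le)
    have h1 := hwd x hx hx2
    have h2 : HasDerivAt (fun x => Real.log (1 + w x)) (-(4 * x / (N ^ 2 * w x)) / (1 + w x)) x :=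
      (h1.const_add 1).log (by positivity)
    have h3 := ((((h1.const_sub 1).sub_const (Real.log 2)).add h2)).const_mul (N / 2)
    refine h3.congr_deriv ?_
    rw [hz]
    field_simp
    ring
  have hzd : ∀ x : ℝ, 0 < x → x < (n : ℝ) / 2 → HasDerivAt z (2 / (N * w x * (1 + w x))) x := by
    intro x hx hx2
    have h4 : 0 < w x := hw0.trans_le (hww x hx.le hx2.le)
    have h1 := hwd x hx hx2
    have h2 : HasDerivAt (fun x => N * (1 + w x)) (N * -(4 * x / (N ^ 2 * w x))) x :=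
      (h1.const_add 1).const_mul N
    have h3 : HasDerivAt (fun x : ℝ => 2 * x) 2 x := by
      simpa using (hasDerivAt_id x).const_mul 2
    have h5 := h3.div h2 (by positivity)
    refine h5.congr_deriv ?_
    have h6 := hwsq x hx.le hx2.le
    have h7 : 4 * x ^ 2 = N ^ 2 * (1 - w x ^ 2) := by
      rw [h6]
      field_simp
      ring
    rw [div_eq_div_iff (by positivity) (by positivity)]
    have h8 : 2 * x * (N * -(4 * x / (N ^ 2 * w x))) = -(2 * (4 * x ^ 2) / (N * w x)) := by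
      field_simp
      try ring
    rw [h8, h7]
    field_simp
    try ring
  -- continuity on the closed interval
  have hwc : ContinuousOn w (Set.Icc 0 ((n : ℝ) / 2)) := by
    rw [hw]
    fun_prop
  have hw1' : ∀ x, 0 < 1 + w x := fun x => by
    have : 0 ≤ w x := Real.sqrt_nonneg _
    linarith
  have hZc : ContinuousOn Z (Set.Icc 0 ((n : ℝ) / 2)) := by
    rw [hZ]
    refine continuousOn_const.mul (((continuousOn_const.sub hwc).sub continuousOn_const).add ?_)
    exact (continuousOn_const.add hwc).log fun x _ => (hw1' x).ne'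
  have hzc : ContinuousOn z (Set.Icc 0 ((n : ℝ) / 2)) := by
    rw [hz]
    refine (continuousOn_const.mul continuousOn_id).div
      (continuousOn_const.mul (continuousOn_const.add hwc)) fun x _ => ?_
    have := hw1' x
    positivity
  obtain ⟨m, hm⟩ : ∃ m, n = m + 2 := ⟨n - 2, by omega⟩
  -- the first monotonicity
  set G : ℝ → ℝ := fun x => x ^ (m + 1) * Real.exp (-Z x) * (F1 x + z x * F x) with hG
  have hGanti : AntitoneOn G (Set.Icc 0 ((n : ℝ) / 2)) := by
    refine antitoneOn_of_hasDerivWithinAt_nonpos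
      (f' := fun x => x ^ m * Real.exp (-Z x) * ((((m + 1 : ℕ) : ℝ) - x * z x) * (F1 x + z x * F x) +
        x * (F2 x + (2 / (N * w x * (1 + w x)) * F x + z x * F1 x)))) (convex_Icc _ _) ?_ ?_ ?_
    · rw [hG]
      exact (((continuous_pow _).continuousOn.mul (hZc.neg.rexp))).mul
        (h.cont1.continuousOn.add (hzc.mul h.cont.continuousOn))
    · intro x hx
      rw [interior_Icc] at hx
      have e1 : HasDerivAt (fun x : ℝ => x ^ (m + 1)) (((m + 1 : ℕ) : ℝ) * x ^ m) x := by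
        simpa using hasDerivAt_pow (m + 1) x
      have e2 : HasDerivAt (fun x : ℝ => Real.exp (-Z x)) (Real.exp (-Z x) * -(z x)) x :=
        ((hZd x hx.1 hx.2).neg).exp
      have e3 : HasDerivAt (fun x : ℝ => F1 x + z x * F x)
          (F2 x + (2 / (N * w x * (1 + w x)) * F x + z x * F1 x)) x :=
        (h.d2 x).add ((hzd x hx.1 hx.2).mul (h.d1 x))
      refine (((e1.mul e2).mul e3).congr_deriv ?_).hasDerivWithinAt
      have : x ^ (m + 1) = x ^ m * x := pow_succ x m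
      simp only [Pi.mul_apply]
      rw [this]
      ring
    · intro x hx
      rw [interior_Icc] at hx
      have hx0 := hx.1
      have h4 : w₀ ≤ w x := hww x hx.1.le hx.2.le
      have h4' : 0 < w x := hw0.trans_le h4
      have h6 := hwsq x hx.1.le hx.2.le
      have h7 : 4 * x ^ 2 = N ^ 2 * (1 - w x ^ 2) := by
        rw [h6]
        field_simp
        ring
      have hp := h.pos hn x hx.1.le hx.2.le
      have ho := h.ode x
      have hnm : (n : ℝ) = (m : ℝ) + 2 := by rw [hm]; push_cast; ring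
      have h8 : x * F2 x = -(((m : ℝ) + 1) * F1 x) - x * F x := by
        rw [hnm] at ho
        linarith
      have hzz : x * z x ^ 2 + x = N * z x := by
        rw [hz]
        have : x * (2 * x / (N * (1 + w x))) ^ 2 + x = x * (4 * x ^ 2 / (N ^ 2 * (1 + w x) ^ 2) + 1) := by
          field_simp
          ring
        simp only
        rw [this, h7]
        field_simp
        ring
      have key : (((m + 1 : ℕ) : ℝ) - x * z x) * (F1 x + z x * F x) +
          x * (F2 x + (2 / (N * w x * (1 + w x)) * F x + z x * F1 x)) =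
          -(F x * (N * z x - ((m : ℝ) + 1) * z x - 2 * x / (N * w x * (1 + w x)))) := by
        rw [← hzz]
        push_cast
        linear_combination h8
      rw [key]
      have h9 : 0 ≤ N * z x - ((m : ℝ) + 1) * z x - 2 * x / (N * w x * (1 + w x)) := by
        have e : N * z x - ((m : ℝ) + 1) * z x - 2 * x / (N * w x * (1 + w x)) =
            2 * x / (N * (1 + w x)) * (N - n + 1 - 1 / w x) := by
          rw [hz, hnm]
          simp only
          field_simp
          ring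
        rw [e]
        have h10 : 1 / w x ≤ 1 / w₀ := one_div_le_one_div_of_le hw0 h4
        have : 0 ≤ N - n + 1 - 1 / w x := by linarith
        positivity
      have h11 : 0 ≤ x ^ m * Real.exp (-Z x) := by positivity
      have h12 := mul_nonneg h11 (mul_nonneg hp.le h9)
      nlinarith [h12]
  have hGle : ∀ x : ℝ, 0 < x → x ≤ (n : ℝ) / 2 → F1 x + z x * F x ≤ 0 := by
    intro x hx hx2
    have h1 := hGanti ⟨le_rfl, by positivity⟩ ⟨hx.le, hx2⟩ hx.le
    have h2 : G 0 = 0 := by simp [hG]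
    rw [h2] at h1
    have h3 : 0 < x ^ (m + 1) * Real.exp (-Z x) := by positivity
    by_contra hc
    push Not at hc
    have := mul_pos h3 hc
    rw [hG] at h1
    simp only at h1
    linarith
  have hEanti : AntitoneOn (fun x => Real.exp (Z x) * F x) (Set.Icc 0 ((n : ℝ) / 2)) := by
    refine antitoneOn_of_hasDerivWithinAt_nonpos
      (f' := fun x => Real.exp (Z x) * (F1 x + z x * F x)) (convex_Icc _ _) ?_ ?_ ?_
    · exact (hZc.rexp).mul h.cont.continuousOn
    · intro x hx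
      rw [interior_Icc] at hx
      refine ((((hZd x hx.1 hx.2).exp).mul (h.d1 x)).congr_deriv ?_).hasDerivWithinAt
      ring
    · intro x hx
      rw [interior_Icc] at hx
      exact mul_nonpos_of_nonneg_of_nonpos (Real.exp_pos _).le (hGle x hx.1 hx.2.le)
  have h1 := hEanti ⟨le_rfl, by positivity⟩ ⟨by positivity, le_rfl⟩
    (by positivity : (0 : ℝ) ≤ (n : ℝ) / 2)
  simp only at h1
  have hZ0 : Z 0 = 0 := by
    rw [hZ, hw]
    norm_num
  rw [hZ0, h.zero, Real.exp_zero, mul_one] at h1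
  have hwn : w ((n : ℝ) / 2) = w₀ := by
    rw [hw]
    simp only
    have : 1 - 4 * ((n : ℝ) / 2) ^ 2 / N ^ 2 = w₀ ^ 2 := by
      have e : 4 * ((n : ℝ) / 2) ^ 2 = N ^ 2 * (1 - w₀ ^ 2) := by rw [hN]; ring
      rw [e]
      field_simp
      ring
    rw [this, Real.sqrt_sq hw0.le]
  have h2 : Z ((n : ℝ) / 2) = N / 2 * (1 - w₀ - Real.log 2 + Real.log (1 + w₀)) := by
    rw [hZ]
    simp only
    rw [hwn]
  rw [← h2, Real.exp_neg, ← one_div, le_div_iff₀ (Real.exp_pos _), mul_comm]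
  exact h1

end Radial

end Pool.Agent.K4H71.TS
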