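import Pool.Agent.K4H71.TS.Ode
import Pool.Agent.H438R2.BR.T10
import Pool.Agent.H438R2.BR.T7

/-! The Fourier transform of the sphere is a radial solution of the Helmholtz equation. -/

set_option autoImplicit false

namespace Pool.Agent.K4H71.TS

open MeasureTheory Set intervalIntegral

/-- the weight `(1 - s²)^((n - 3)/2)` -/
noncomputable def W (n : ℕ) (s : ℝ) : ℝ := (1 - s ^ 2) ^ (((n : ℝ) - 3) / 2)

noncomputable def C0 (n : ℕ) (x : ℝ) : ℝ := ∫ s in (-1 : ℝ)..1, Real.cos (x * s) * W n s
noncomputable def C1 (n : ℕ) (x : ℝ) : ℝ := ∫ s in (-1 : ℝ)..1, -(s * Real.sin (x * s)) * W n s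
noncomputable def C2 (n : ℕ) (x : ℝ) : ℝ := ∫ s in (-1 : ℝ)..1, -(s ^ 2 * Real.cos (x * s)) * W n s

theorem W_cont {n : ℕ} (hn : 3 ≤ n) : Continuous (W n) := by
  unfold W
  refine Continuous.rpow_const (by fun_prop) fun x => Or.inr ?_
  have : (3 : ℝ) ≤ n := by exact_mod_cast hn
  linarith

theorem d_gen {n : ℕ} (hn : 3 ≤ n) (f g : ℝ → ℝ → ℝ) (hf : Continuous fun p : ℝ × ℝ => f p.1 p.2)
    (hg : Continuous fun p : ℝ × ℝ => g p.1 p.2)
    (hfg : ∀ x s, HasDerivAt (fun x => f x s) (g x s) x)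
    (hb : ∀ x s, s ∈ Set.uIoc (-1 : ℝ) 1 → |g x s| ≤ 1) (x : ℝ) :
    HasDerivAt (fun x => ∫ s in (-1 : ℝ)..1, f x s * W n s) (∫ s in (-1 : ℝ)..1, g x s * W n s) x := by
  have hW := W_cont hn
  have := intervalIntegral.hasDerivAt_integral_of_dominated_loc_of_deriv_le (μ := volume)
    (F := fun x s => f x s * W n s) (F' := fun x s => g x s * W n s) (x₀ := x) (a := -1) (b := 1)
    (s := Set.univ) (bound := fun s => |W n s|) Filter.univ_mem ?_ ?_ ?_ ?_ ?_ ?_
  · exact this.2
  · refine Filter.Eventually.of_forall fun y => ?_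
    exact ((hf.comp (continuous_const.prodMk continuous_id)).mul hW).aestronglyMeasurable
  · exact ((hf.comp (continuous_const.prodMk continuous_id)).mul hW).intervalIntegrable _ _
  · exact ((hg.comp (continuous_const.prodMk continuous_id)).mul hW).aestronglyMeasurable
  · refine Filter.Eventually.of_forall fun s hs y _ => ?_
    rw [Real.norm_eq_abs, abs_mul]
    exact mul_le_of_le_one_left (abs_nonneg _) (hb y s hs)
  · exact (hW.abs).intervalIntegrable _ _
  · refine Filter.Eventually.of_forall fun s _ y _ => ?_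
    exact (hfg y s).mul_const _

theorem abs_le_of_uIoc {s : ℝ} (hs : s ∈ Set.uIoc (-1 : ℝ) 1) : |s| ≤ 1 := by
  rw [Set.uIoc_of_le (by norm_num)] at hs
  rw [abs_le]
  exact ⟨hs.1.le, hs.2⟩

theorem C0_d {n : ℕ} (hn : 3 ≤ n) (x : ℝ) : HasDerivAt (C0 n) (C1 n x) x := by
  refine d_gen hn (fun x s => Real.cos (x * s)) (fun x s => -(s * Real.sin (x * s)))
    (by fun_prop) (by fun_prop) ?_ ?_ x
  · intro x s
    have h1 : HasDerivAt (fun x => x * s) s x := by simpa using (hasDerivAt_id x).mul_const s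
    have := h1.cos
    refine this.congr_deriv (by ring)
  · intro x s hs
    rw [abs_neg, abs_mul]
    exact mul_le_one₀ (abs_le_of_uIoc hs) (abs_nonneg _) (Real.abs_sin_le_one _)

theorem C1_d {n : ℕ} (hn : 3 ≤ n) (x : ℝ) : HasDerivAt (C1 n) (C2 n x) x := by
  refine d_gen hn (fun x s => -(s * Real.sin (x * s))) (fun x s => -(s ^ 2 * Real.cos (x * s)))
    (by fun_prop) (by fun_prop) ?_ ?_ x
  · intro x s
    have h1 : HasDerivAt (fun x => x * s) s x := by simpa using (hasDerivAt_id x).mul_const s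
    have := (h1.sin.const_mul s).neg
    refine this.congr_deriv (by ring)
  · intro x s hs
    rw [abs_neg, abs_mul, abs_pow]
    exact mul_le_one₀ (pow_le_one₀ (abs_nonneg _) (abs_le_of_uIoc hs)) (abs_nonneg _)
      (Real.abs_cos_le_one _)

theorem C_ode {n : ℕ} (hn : 3 ≤ n) (x : ℝ) :
    x * C2 n x + (n - 1) * C1 n x + x * C0 n x = 0 := by
  have hW := W_cont hn
  have hn3 : (3 : ℝ) ≤ n := by exact_mod_cast hn
  set P : ℝ → ℝ := fun s => Real.sin (x * s) * (1 - s ^ 2) ^ (((n : ℝ) - 3) / 2 + 1) with hP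
  have hPd : ∀ s, HasDerivAt P (x * Real.cos (x * s) * (1 - s ^ 2) ^ (((n : ℝ) - 3) / 2 + 1) +
      Real.sin (x * s) * (-(((n : ℝ) - 1) * s) * W n s)) s := by
    intro s
    have h1 : HasDerivAt (fun s => Real.sin (x * s)) (x * Real.cos (x * s)) s := by
      have h0 : HasDerivAt (fun s => x * s) x s := by simpa using (hasDerivAt_id s).const_mul x
      refine h0.sin.congr_deriv (by ring)
    have h2 : HasDerivAt (fun s : ℝ => 1 - s ^ 2) (-(2 * s)) s := by
      simpa using (hasDerivAt_pow 2 s).const_sub 1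
    have h3 := h2.rpow_const (p := ((n : ℝ) - 3) / 2 + 1) (Or.inr (by linarith))
    refine (h1.mul h3).congr_deriv ?_
    rw [add_sub_cancel_right]
    unfold W
    ring
  have hint : ∫ s in (-1 : ℝ)..1, (x * Real.cos (x * s) * (1 - s ^ 2) ^ (((n : ℝ) - 3) / 2 + 1) +
      Real.sin (x * s) * (-(((n : ℝ) - 1) * s) * W n s)) = 0 := by
    rw [integral_eq_sub_of_hasDerivAt (fun s _ => hPd s)]
    · simp only [hP]
      norm_num
      rw [Real.zero_rpow (by linarith)]
      simp
    · refine Continuous.intervalIntegrable ?_ _ _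
      have h4 : Continuous fun s : ℝ => (1 - s ^ 2) ^ (((n : ℝ) - 3) / 2 + 1) :=
        Continuous.rpow_const (by fun_prop) fun x => Or.inr (by linarith)
      fun_prop
  have hi0 : IntervalIntegrable (fun s => Real.cos (x * s) * W n s) volume (-1) 1 :=
    Continuous.intervalIntegrable (by fun_prop) _ _
  have hi1 : IntervalIntegrable (fun s => -(s * Real.sin (x * s)) * W n s) volume (-1) 1 :=
    Continuous.intervalIntegrable (by fun_prop) _ _
  have hi2 : IntervalIntegrable (fun s => -(s ^ 2 * Real.cos (x * s)) * W n s) volume (-1) 1 :=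
    Continuous.intervalIntegrable (by fun_prop) _ _
  unfold C0 C1 C2
  rw [← intervalIntegral.integral_const_mul, ← intervalIntegral.integral_const_mul,
    ← intervalIntegral.integral_const_mul,
    ← intervalIntegral.integral_add (hi2.const_mul x) (hi1.const_mul _),
    ← intervalIntegral.integral_add ((hi2.const_mul x).add (hi1.const_mul _)) (hi0.const_mul x),
    ← hint]
  refine intervalIntegral.integral_congr fun s hs => ?_
  rw [Set.uIcc_of_le (by norm_num)] at hs
  have h5 : (1 - s ^ 2) ^ (((n : ℝ) - 3) / 2 + 1) = W n s * (1 - s ^ 2) := by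
    unfold W
    have h6 : 0 ≤ 1 - s ^ 2 := by nlinarith [hs.1, hs.2]
    rcases h6.eq_or_lt with h7 | h7
    · rw [← h7, mul_zero, Real.zero_rpow (by linarith)]
    · rw [Real.rpow_add h7, Real.rpow_one]
  rw [h5]
  ring

theorem C0_pos {n : ℕ} (hn : 3 ≤ n) : 0 < C0 n 0 := by
  unfold C0
  simp only [zero_mul, Real.cos_zero, one_mul]
  refine intervalIntegral_pos_of_pos_on ((W_cont hn).intervalIntegrable _ _) ?_ (by norm_num)
  intro s hs
  unfold W
  have : 0 < 1 - s ^ 2 := by nlinarith [hs.1, hs.2]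
  positivity

theorem C1_zero (n : ℕ) : C1 n 0 = 0 := by
  unfold C1
  simp

/-- the normalised Fourier transform of the sphere -/
noncomputable def Om (n : ℕ) (x : ℝ) : ℝ := C0 n x / C0 n 0

theorem Om_radial {n : ℕ} (hn : 3 ≤ n) :
    Radial n (Om n) (fun x => C1 n x / C0 n 0) (fun x => C2 n x / C0 n 0) where
  d1 x := (C0_d hn x).div_const _
  d2 x := (C1_d hn x).div_const _
  ode x := by
    have h1 := C_ode hn x
    have h2 := (C0_pos hn).ne'
    unfold Om
    field_simp
    linarith
  zero := div_self (C0_pos hn).ne'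
  zero1 := by rw [C1_zero, zero_div]

open Pool.Agent.H789R2.FR in
theorem sphere_cos {n : ℕ} (hn : 3 ≤ n) (k : E n) :
    ∫ v, Real.cos (inner ℝ k v) ∂(sg n) = (sg n).real univ * Om n ‖k‖ := by
  have key : ∀ k : E n, ∫ v, Real.cos (inner ℝ k v) ∂(sg n) =
      (sg (n - 1)).real univ * C0 n ‖k‖ := by
    intro k
    have h := Pool.Agent.H438R2.BR.sphere_ft n (by omega) k
    have h1 := congrArg Complex.re h
    have hint : Integrable (fun v : E n => Complex.exp (-((inner ℝ k v : ℝ) : ℂ) * Complex.I))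
        (sg n) := by
      have : IsFiniteMeasure (sg n) := sg_finite n
      refine Integrable.of_bound (C := 1) ?_ ?_
      · refine Continuous.aestronglyMeasurable ?_
        fun_prop
      · refine Filter.Eventually.of_forall fun v => ?_
        rw [← Complex.ofReal_neg, Complex.norm_exp_ofReal_mul_I]
    have h2 : (∫ v, Complex.exp (-((inner ℝ k v : ℝ) : ℂ) * Complex.I) ∂(sg n)).re =
        ∫ v, Real.cos (inner ℝ k v) ∂(sg n) := by
      rw [← RCLike.re_eq_complex_re, ← integral_re hint]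
      refine integral_congr_ae (Filter.Eventually.of_forall fun v => ?_)
      simp only [RCLike.re_eq_complex_re]
      rw [← Complex.ofReal_neg, Complex.exp_ofReal_mul_I_re, Real.cos_neg]
    rw [h2] at h1
    rw [h1, Complex.re_ofReal_mul]
    congr 1
    unfold Pool.Agent.H438R2.BR.Phi C0
    have hW := W_cont hn
    have hint2 : Integrable (fun s : ℝ => Complex.exp (((‖k‖ * s : ℝ) : ℂ) * Complex.I) *
        (((1 - s ^ 2) ^ (((n : ℝ) - 3) / 2) : ℝ) : ℂ)) (volume.restrict (Ioo (-1 : ℝ) 1)) := by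
      have hc : Continuous (fun s : ℝ => Complex.exp (((‖k‖ * s : ℝ) : ℂ) * Complex.I) *
          (((1 - s ^ 2) ^ (((n : ℝ) - 3) / 2) : ℝ) : ℂ)) := by
        have : Continuous fun s : ℝ => (((1 - s ^ 2) ^ (((n : ℝ) - 3) / 2) : ℝ) : ℂ) :=
          Complex.continuous_ofReal.comp hW
        fun_prop
      exact ((hc.integrableOn_Icc (a := -1) (b := 1)).mono_set Ioo_subset_Icc_self)
    rw [← RCLike.re_eq_complex_re, ← integral_re hint2,
      intervalIntegral.integral_of_le (by norm_num), ← integral_Ioc_eq_integral_Ioo]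
    refine integral_congr_ae (Filter.Eventually.of_forall fun s => ?_)
    simp only [RCLike.re_eq_complex_re]
    rw [mul_comm, Complex.re_ofReal_mul, Complex.exp_ofReal_mul_I_re, mul_comm]
    rfl
  have h0 := key 0
  simp only [inner_zero_left, Real.cos_zero, norm_zero, MeasureTheory.integral_const, smul_eq_mul, mul_one] at h0
  rw [key k, h0]
  unfold Om
  have := (C0_pos hn).ne'
  field_simp

end Pool.Agent.K4H71.TS
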