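import Pool.Agent.K4H71.TS.Sph

/-! The structure factor of `delta shell + gap + step` is nonnegative. -/

set_option autoImplicit false

namespace Pool.Agent.K4H71.TS

open MeasureTheory Set

theorem small_pow {n : ℕ} (hn : 1 ≤ n) {t : ℝ} (h0 : 0 ≤ t) (h1 : t ≤ 1) :
    t ^ (n - 1) * Real.exp ((n : ℝ) / 4 * (1 - t ^ 2)) ≤ 2 := by
  obtain ⟨m, rfl⟩ : ∃ m, n = m + 1 := ⟨n - 1, by omega⟩
  rw [Nat.add_sub_cancel]
  have e : Real.exp (((m + 1 : ℕ) : ℝ) / 4 * (1 - t ^ 2)) =
      Real.exp ((1 - t ^ 2) / 4) ^ m * Real.exp ((1 - t ^ 2) / 4) := by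
    rw [← Real.exp_nat_mul, ← Real.exp_add]
    congr 1
    push_cast
    ring
  rw [e, ← mul_assoc, ← mul_pow]
  have h2 : t * Real.exp ((1 - t ^ 2) / 4) ≤ 1 := by
    have h3 : t ≤ Real.exp (t - 1) := by
      have := Real.add_one_le_exp (t - 1)
      linarith
    calc t * Real.exp ((1 - t ^ 2) / 4) ≤ Real.exp (t - 1) * Real.exp ((1 - t ^ 2) / 4) :=
          mul_le_mul_of_nonneg_right h3 (Real.exp_pos _).le
      _ = Real.exp ((t - 1) + (1 - t ^ 2) / 4) := by rw [Real.exp_add]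
      _ ≤ Real.exp 0 := by
          apply Real.exp_le_exp.2
          nlinarith
      _ = 1 := Real.exp_zero
  have h4 : (t * Real.exp ((1 - t ^ 2) / 4)) ^ m ≤ 1 :=
    pow_le_one₀ (mul_nonneg h0 (Real.exp_pos _).le) h2
  have h5 : Real.exp ((1 - t ^ 2) / 4) ≤ 2 := by
    have h6 : Real.exp ((1 - t ^ 2) / 4) ≤ Real.exp (Real.log 2) := by
      apply Real.exp_le_exp.2
      have := Real.log_two_gt_d9
      nlinarith [sq_nonneg t]
    rwa [Real.exp_log (by norm_num)] at h6
  calc (t * Real.exp ((1 - t ^ 2) / 4)) ^ m * Real.exp ((1 - t ^ 2) / 4) ≤ 1 * 2 :=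
        mul_le_mul h4 h5 (Real.exp_pos _).le zero_le_one
    _ = 2 := by norm_num

namespace Radial

variable {n : ℕ} {F F1 F2 : ℝ → ℝ}

theorem tau_nonneg (h : Radial n F F1 F2) (hn : 2 ≤ n) : 0 < F ((n : ℝ) / 2) :=
  h.pos hn _ (by positivity) le_rfl

/-- the pointwise bound -/
theorem ptw (h : Radial n F F1 F2) (hn : 2 ≤ n) {κ B : ℝ} (hκ : 0 ≤ κ) (hB0 : 0 ≤ B)
    (hB : κ ≤ (n : ℝ) / 2 → F κ ≤ B) {r : ℝ} (hr : 0 ≤ r) :
    r ^ (n - 1) * F (r * κ) ≤
      2 * (B + √2 * F ((n : ℝ) / 2)) + r ^ (n - 1) * (B + √2 * F ((n : ℝ) / 2)) := by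
  have hn0 : (0 : ℝ) < n := by positivity
  have hτ := h.tau_nonneg hn
  have h2 : 1 ≤ √2 := by
    rw [Real.one_le_sqrt]
    norm_num
  have hτ2 : F ((n : ℝ) / 2) ≤ √2 * F ((n : ℝ) / 2) := by nlinarith
  set τ : ℝ := √2 * F ((n : ℝ) / 2) with hτd
  have hτ0 : 0 ≤ τ := by positivity
  have hrn : 0 ≤ r ^ (n - 1) := pow_nonneg hr _
  rcases le_total ((n : ℝ) / 2) (r * κ) with hc | hc
  · have h3 := h.far hn hc
    have h4 : F (r * κ) ≤ τ := (le_abs_self _).trans h3
    have h5 : r ^ (n - 1) * F (r * κ) ≤ r ^ (n - 1) * (B + τ) :=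
      mul_le_mul_of_nonneg_left (by linarith) hrn
    linarith
  · rcases le_total 1 r with hr1 | hr1
    · have hκ2 : κ ≤ (n : ℝ) / 2 := by
        have : κ ≤ r * κ := by nlinarith
        linarith
      have h3 := h.anti hn hκ (by nlinarith : κ ≤ r * κ) hc
      have h4 := hB hκ2
      have h5 : r ^ (n - 1) * F (r * κ) ≤ r ^ (n - 1) * (B + τ) :=
        mul_le_mul_of_nonneg_left (by linarith) hrn
      linarith
    · -- `r ≤ 1`, `r κ ≤ n / 2`
      have key : r ^ (n - 1) * F (r * κ) ≤ 2 * (B + τ) := by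
        rcases le_total κ ((n : ℝ) / 2) with hκ2 | hκ2
        · have h3 := h.growth hn (mul_nonneg hr hκ) (by nlinarith : r * κ ≤ κ) hκ2
          have hFκ : 0 < F κ := h.pos hn κ hκ hκ2
          have h4 : Real.exp ((κ ^ 2 - (r * κ) ^ 2) / n) ≤ Real.exp ((n : ℝ) / 4 * (1 - r ^ 2)) := by
            apply Real.exp_le_exp.2
            rw [div_le_iff₀ hn0]
            have h5 : κ ^ 2 ≤ (n : ℝ) ^ 2 / 4 := by nlinarith
            have h6 : 0 ≤ 1 - r ^ 2 := by nlinarith
            nlinarith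
          calc r ^ (n - 1) * F (r * κ)
              ≤ r ^ (n - 1) * (Real.exp ((n : ℝ) / 4 * (1 - r ^ 2)) * F κ) := by
                refine mul_le_mul_of_nonneg_left (h3.trans ?_) hrn
                exact mul_le_mul_of_nonneg_right h4 hFκ.le
            _ = (r ^ (n - 1) * Real.exp ((n : ℝ) / 4 * (1 - r ^ 2))) * F κ := by ring
            _ ≤ 2 * F κ := mul_le_mul_of_nonneg_right (small_pow (by omega) hr hr1) hFκ.le
            _ ≤ 2 * (B + τ) := by
                have := hB hκ2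
                linarith
        · have hκ0 : 0 < κ := lt_of_lt_of_le (by positivity) hκ2
          set t : ℝ := r * κ / ((n : ℝ) / 2) with ht
          have ht0 : 0 ≤ t := by positivity
          have ht1 : t ≤ 1 := by
            rw [ht, div_le_one (by positivity)]
            exact hc
          have hrt : r ≤ t := by
            rw [ht, le_div_iff₀ (by positivity)]
            nlinarith
          have h3 := h.growth hn (mul_nonneg hr hκ) hc le_rfl
          have h4 : (((n : ℝ) / 2) ^ 2 - (r * κ) ^ 2) / n = (n : ℝ) / 4 * (1 - t ^ 2) := by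
            have : r * κ = t * ((n : ℝ) / 2) := by
              rw [ht]
              field_simp
            rw [this]
            field_simp
            ring
          rw [h4] at h3
          calc r ^ (n - 1) * F (r * κ)
              ≤ t ^ (n - 1) * (Real.exp ((n : ℝ) / 4 * (1 - t ^ 2)) * F ((n : ℝ) / 2)) := by
                have hFp := h.pos hn (r * κ) (mul_nonneg hr hκ) hc
                refine mul_le_mul (pow_le_pow_left₀ hr hrt _) h3 hFp.le (pow_nonneg ht0 _)
            _ = (t ^ (n - 1) * Real.exp ((n : ℝ) / 4 * (1 - t ^ 2))) * F ((n : ℝ) / 2) := by ring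
            _ ≤ 2 * F ((n : ℝ) / 2) :=
                mul_le_mul_of_nonneg_right (small_pow (by omega) ht0 ht1) hτ.le
            _ ≤ 2 * (B + τ) := by linarith
      have h7 : 0 ≤ r ^ (n - 1) * (B + τ) := by positivity
      linarith

theorem intg (h : Radial n F F1 F2) (hn : 2 ≤ n) {κ B R : ℝ} (hκ : 0 ≤ κ) (hB0 : 0 ≤ B)
    (hB : κ ≤ (n : ℝ) / 2 → F κ ≤ B) (hR : 1 ≤ R) :
    n * ∫ r in (0 : ℝ)..R, r ^ (n - 1) * F (r * κ) ≤
      (2 * n + 1) * R ^ n * (B + √2 * F ((n : ℝ) / 2)) := by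
  have hn0 : (0 : ℝ) < n := by positivity
  have hτ := h.tau_nonneg hn
  set τ : ℝ := √2 * F ((n : ℝ) / 2) with hτd
  have hτ0 : 0 ≤ τ := by positivity
  have h1 : ∫ r in (0 : ℝ)..R, r ^ (n - 1) * F (r * κ) ≤
      ∫ r in (0 : ℝ)..R, (2 * (B + τ) + r ^ (n - 1) * (B + τ)) := by
    have hFc := h.cont
    refine intervalIntegral.integral_mono_on (by linarith)
      (Continuous.intervalIntegrable (by fun_prop) _ _)
      (Continuous.intervalIntegrable (by fun_prop) _ _) ?_
    intro r hr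
    exact h.ptw hn hκ hB0 hB hr.1
  have h2 : ∫ r in (0 : ℝ)..R, (2 * (B + τ) + r ^ (n - 1) * (B + τ)) =
      R * (2 * (B + τ)) + R ^ n / n * (B + τ) := by
    rw [intervalIntegral.integral_add (Continuous.intervalIntegrable (by fun_prop) _ _)
      (Continuous.intervalIntegrable (by fun_prop) _ _), intervalIntegral.integral_const,
      intervalIntegral.integral_mul_const, integral_pow]
    have : n - 1 + 1 = n := by omega
    rw [this]
    have h3 : ((n - 1 : ℕ) : ℝ) + 1 = n := by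
      exact_mod_cast this
    rw [h3, zero_pow (by omega)]
    simp
  rw [h2] at h1
  have h3 : R ≤ R ^ n := by
    calc R = R ^ 1 := (pow_one R).symm
      _ ≤ R ^ n := pow_le_pow_right₀ hR (by omega)
  calc n * ∫ r in (0 : ℝ)..R, r ^ (n - 1) * F (r * κ)
      ≤ n * (R * (2 * (B + τ)) + R ^ n / n * (B + τ)) := mul_le_mul_of_nonneg_left h1 hn0.le
    _ = (2 * n * R + R ^ n) * (B + τ) := by
        field_simp
    _ ≤ (2 * n * R ^ n + R ^ n) * (B + τ) := by
        refine mul_le_mul_of_nonneg_right ?_ (by linarith)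
        nlinarith
    _ = _ := by ring

end Radial

open Pool.Agent.H789R2.FR in
theorem ball_cos {n : ℕ} (hn : 3 ≤ n) (k : E n) {R : ℝ} (hR : 0 ≤ R) :
    ∫ x in Metric.ball (0 : E n) R, Real.cos (inner ℝ k x) =
      (sg n).real univ * ∫ r in (0 : ℝ)..R, r ^ (n - 1) * Om n (r * ‖k‖) := by
  have hfin : IsFiniteMeasure (sg n) := sg_finite n
  set G : E n → ℂ := (Metric.ball (0 : E n) R).indicator (fun x => ((Real.cos (inner ℝ k x) : ℝ) : ℂ))
    with hG
  have hGi : Integrable G := by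
    rw [hG, integrable_indicator_iff Metric.isOpen_ball.measurableSet]
    refine Measure.integrableOn_of_bounded (M := 1) measure_ball_lt_top.ne ?_ ?_
    · refine Continuous.aestronglyMeasurable ?_
      exact Complex.continuous_ofReal.comp (Real.continuous_cos.comp (by fun_prop))
    · refine Filter.Eventually.of_forall fun x => ?_
      rw [Complex.norm_real]
      exact Real.abs_cos_le_one _
  have h := Pool.Agent.H438R2.BR.T7.polar_int (by omega : 0 < n) G hGi
  have h1 : ∫ x, G x = ((∫ x in Metric.ball (0 : E n) R, Real.cos (inner ℝ k x) : ℝ) : ℂ) := by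
    rw [hG, integral_indicator Metric.isOpen_ball.measurableSet, integral_complex_ofReal]
  have h2 : ∀ r ∈ Ioi (0 : ℝ), ((r ^ (n - 1) : ℝ) : ℂ) * ∫ w, G (r • w) ∂(sg n) =
      (Ioo (0 : ℝ) R).indicator (fun r => (((sg n).real univ * (r ^ (n - 1) * Om n (r * ‖k‖)) : ℝ) : ℂ)) r := by
    intro r hr
    have hr0 : 0 < r := hr
    by_cases hrR : r < R
    · rw [indicator_of_mem (show r ∈ Ioo (0 : ℝ) R from ⟨hr0, hrR⟩)]
      have h3 : ∫ w, G (r • w) ∂(sg n) = ∫ w, ((Real.cos (inner ℝ (r • k) w) : ℝ) : ℂ) ∂(sg n) := by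
        refine integral_congr_ae ?_
        filter_upwards [sg_ae n] with w hw
        rw [hG, indicator_of_mem]
        · rw [inner_smul_right, inner_smul_left]
          simp
        · rw [mem_ball_zero_iff, norm_smul, hw, mul_one, Real.norm_of_nonneg hr0.le]
          exact hrR
      rw [h3, integral_complex_ofReal, sphere_cos hn, norm_smul, Real.norm_of_nonneg hr0.le]
      push_cast
      ring
    · rw [indicator_of_notMem (fun hh => hrR hh.2)]
      have h3 : ∫ w, G (r • w) ∂(sg n) = 0 := by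
        rw [integral_eq_zero_of_ae]
        filter_upwards [sg_ae n] with w hw
        rw [hG, indicator_of_notMem]
        · rfl
        · rw [mem_ball_zero_iff, norm_smul, hw, mul_one, Real.norm_of_nonneg hr0.le]
          exact hrR
      rw [h3, mul_zero]
  rw [h1, setIntegral_congr_fun measurableSet_Ioi h2, setIntegral_indicator measurableSet_Ioo,
    inter_eq_right.2 (Ioo_subset_Ioi_self), integral_complex_ofReal] at h
  have h4 := Complex.ofReal_injective h
  rw [h4, integral_const_mul, intervalIntegral.integral_of_le hR, integral_Ioc_eq_integral_Ioo]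

open Pool.Agent.H789R2.FR in
theorem sg_vol {n : ℕ} (hn : 3 ≤ n) {R : ℝ} (hR : 0 ≤ R) :
    (sg n).real univ * (R ^ n / n) = (volume (Metric.ball (0 : E n) R)).toReal := by
  have h := ball_cos hn (0 : E n) hR
  simp only [inner_zero_left, Real.cos_zero, integral_const, smul_eq_mul, mul_one, norm_zero,
    mul_zero] at h
  rw [measureReal_restrict_apply_univ] at h
  have h0 : Om n 0 = 1 := (Om_radial hn).zero
  simp only [h0, mul_one] at h
  rw [integral_pow] at h
  have h1 : n - 1 + 1 = n := by omega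
  have h2 : ((n - 1 : ℕ) : ℝ) + 1 = n := by
    exact_mod_cast h1
  rw [h1, h2, zero_pow (by omega), sub_zero] at h
  exact h.symm

open Pool.Agent.H789R2.FR in
/-- the structure factor -/
theorem str_nonneg {n : ℕ} (hn : 3 ≤ n) {Z ρ R : ℝ} (hρ : 0 ≤ ρ) (hR : 1 ≤ R)
    (hZ : (2 * n + 1) * (ρ * (volume (Metric.ball (0 : E n) R)).toReal) ≤ Z)
    (hτ : Z * (√2 * Om n ((n : ℝ) / 2)) ≤ 1 / 2) (k : E n) :
    0 ≤ 1 + Z * Om n ‖k‖ - ρ * ∫ x in Metric.ball (0 : E n) R, Real.cos (inner ℝ k x) := by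
  have hO := Om_radial hn
  have hn2 : 2 ≤ n := by omega
  have hn0 : (0 : ℝ) < n := by positivity
  have hτ0 := hO.tau_nonneg hn2
  set τ : ℝ := √2 * Om n ((n : ℝ) / 2) with hτd
  have hτ1 : 0 ≤ τ := by positivity
  rw [ball_cos hn k (by linarith)]
  set ω := (Pool.Agent.H789R2.FR.sg n).real univ with hω
  have hω0 : 0 ≤ ω := measureReal_nonneg
  have hv := sg_vol hn (R := R) (by linarith)
  rw [← hω] at hv
  have hZ0 : 0 ≤ Z := le_trans (by positivity) hZ
  set B : ℝ := if ‖k‖ ≤ (n : ℝ) / 2 then Om n ‖k‖ else 0 with hB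
  have hB0 : 0 ≤ B := by
    rw [hB]
    split_ifs with h
    · exact (hO.pos hn2 _ (norm_nonneg _) h).le
    · exact le_rfl
  have hBle : ‖k‖ ≤ (n : ℝ) / 2 → Om n ‖k‖ ≤ B := by
    intro h
    rw [hB, if_pos h]
  have h1 := hO.intg hn2 (norm_nonneg k) hB0 hBle hR
  rw [← hτd] at h1
  have h2 : ρ * (ω * ∫ r in (0 : ℝ)..R, r ^ (n - 1) * Om n (r * ‖k‖)) ≤ Z * (B + τ) := by
    calc ρ * (ω * ∫ r in (0 : ℝ)..R, r ^ (n - 1) * Om n (r * ‖k‖))
        = ρ * (ω / n) * (n * ∫ r in (0 : ℝ)..R, r ^ (n - 1) * Om n (r * ‖k‖)) := by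
          generalize (∫ r in (0 : ℝ)..R, r ^ (n - 1) * Om n (r * ‖k‖)) = I
          field_simp
      _ ≤ ρ * (ω / n) * ((2 * n + 1) * R ^ n * (B + τ)) :=
          mul_le_mul_of_nonneg_left h1 (by positivity)
      _ = ((2 * n + 1) * (ρ * (ω * (R ^ n / n)))) * (B + τ) := by ring
      _ ≤ Z * (B + τ) := by
          rw [hv]
          exact mul_le_mul_of_nonneg_right hZ (by linarith)
  have h3 : Z * B - Z * τ ≤ Z * Om n ‖k‖ := by
    rw [← mul_sub]
    refine mul_le_mul_of_nonneg_left ?_ hZ0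
    rw [hB]
    split_ifs with h
    · linarith
    · have := hO.far hn2 (not_le.1 h).le
      rw [← hτd] at this
      have := neg_abs_le (Om n ‖k‖)
      linarith
  nlinarith

end Pool.Agent.K4H71.TS
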